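import Pool.Agent.Lib.MP_6505eb_co.Final

set_option autoImplicit false

/-! Generalized lollipops are two-colour bonbons, in the words of the problem file. -/

namespace Pool.Agent.Results.MP_6505eb_co.LollipopConstant

open Classical Filter Topology

/-- `H` is obtained from the complete graph on the `k`-set `S` by attaching trees to the vertices
of `S`: it is the union of the complete graph on `S` and of a forest `F` on all vertices in which
the component of every vertex contains exactly one vertex of `S`. -/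
def IsLollipop (k : ℕ) {V : Type} (H : SimpleGraph V) : Prop :=
  ∃ (S : Finset V) (F : SimpleGraph V), S.card = k ∧ F.IsAcyclic ∧
    (∀ v, ∃! s, s ∈ S ∧ F.Reachable v s) ∧
    ∀ u v, H.Adj u v ↔ (u ≠ v ∧ u ∈ S ∧ v ∈ S) ∨ F.Adj u v

/-- The number of monochromatic copies of `H` in the colouring of the complete graph on `n` points
whose red graph is `G`: injective maps sending all edges to red pairs, or all to blue pairs. -/
noncomputable def monoCopies {t n : ℕ} (H : SimpleGraph (Fin t)) (G : SimpleGraph (Fin n)) : ℕ :=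
  Nat.card {f : Fin t → Fin n // Function.Injective f ∧
    ((∀ u v, H.Adj u v → G.Adj (f u) (f v)) ∨ (∀ u v, H.Adj u v → ¬ G.Adj (f u) (f v)))}

/-- The least proportion of monochromatic copies of `H` over all red/blue colourings of the
complete graph on `n` points. -/
noncomputable def minProportion {t : ℕ} (H : SimpleGraph (Fin t)) (n : ℕ) : ℝ :=
  ⨅ G : SimpleGraph (Fin n), (monoCopies H G : ℝ) / (n.descFactorial t : ℝ)

/-- The Ramsey multiplicity constant of `H` is `c`. -/
def HasRamseyMultiplicity {t : ℕ} (H : SimpleGraph (Fin t)) (c : ℝ) : Prop :=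
  Tendsto (fun n : ℕ => minProportion H n) atTop (𝓝 c)

/-! ### The number of edges -/

section count

variable {V : Type} [Fintype V]

/-- `F` with the edges from `s₀` to the vertices of `A`. -/
def addStar (F : SimpleGraph V) (s₀ : V) (A : Finset V) : SimpleGraph V where
  Adj u v := F.Adj u v ∨ (u = s₀ ∧ v ∈ A ∧ v ≠ s₀) ∨ (v = s₀ ∧ u ∈ A ∧ u ≠ s₀)
  symm := ⟨fun u v h => by
    rcases h with h | h | h
    · exact Or.inl h.symm
    · exact Or.inr (Or.inr h)
    · exact Or.inr (Or.inl h)⟩
  loopless := ⟨fun u h => by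
    rcases h with h | ⟨h, -, h'⟩ | ⟨h, -, h'⟩
    · exact F.loopless.irrefl u h
    · exact h' h
    · exact h' h⟩

theorem star_count (F : SimpleGraph V) (hF : F.IsAcyclic) (S : Finset V)
    (hroot : ∀ v, ∃! s, s ∈ S ∧ F.Reachable v s) (s₀ : V) (hs₀ : s₀ ∈ S) (A : Finset V)
    (hA : A ⊆ S.erase s₀) :
    (addStar F s₀ A).IsAcyclic ∧ (addStar F s₀ A).edgeSet.ncard = F.edgeSet.ncard + A.card := by
  choose r hr hr' using hroot
  have hrS : ∀ s ∈ S, r s = s := fun s hs => (hr' s s ⟨hs, SimpleGraph.Reachable.refl s⟩).symm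
  have hradj : ∀ u v, F.Adj u v → r u = r v := fun u v h =>
    hr' v (r u) ⟨(hr u).1, h.symm.reachable.trans (hr u).2⟩
  induction A using Finset.induction_on with
  | empty =>
    have h : addStar F s₀ ∅ = F := by
      ext u v
      simp [addStar]
    rw [h]
    exact ⟨hF, by simp⟩
  | insert a A ha ih =>
    obtain ⟨h1, h2⟩ := ih (fun x hx => hA (Finset.mem_insert_of_mem hx))
    have haS := hA (Finset.mem_insert_self a A)
    rw [Finset.mem_erase] at haS
    -- the quotient map
    set g : V → V := fun v => if r v ∈ A then s₀ else r v with hg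
    have hAS : ∀ x ∈ A, x ∈ S := fun x hx =>
      Finset.mem_of_mem_erase (hA (Finset.mem_insert_of_mem hx))
    have hg0 : g s₀ = s₀ := by
      rw [hg]
      simp only [hrS s₀ hs₀]
      split_ifs <;> rfl
    have hgA : ∀ x ∈ A, g x = s₀ := by
      intro x hx
      rw [hg]
      simp only [hrS x (hAS x hx), if_pos hx]
    have hgadj : ∀ u v, (addStar F s₀ A).Adj u v → g u = g v := by
      rintro u v (h | ⟨h, h', -⟩ | ⟨h, h', -⟩)
      · rw [hg]
        simp only [hradj u v h]
      · rw [h, hg0, hgA v h']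
      · rw [h, hg0, hgA u h']
    have hgreach : ∀ u v, (addStar F s₀ A).Reachable u v → g u = g v := by
      rintro u v ⟨p⟩
      induction p with
      | nil => rfl
      | cons h _ ih => exact (hgadj _ _ h).trans ih
    have hnr : ¬ (addStar F s₀ A).Reachable s₀ a := by
      intro h
      have h3 := hgreach _ _ h
      rw [hg0] at h3
      have h4 : g a = a := by
        rw [hg]
        simp only [hrS a haS.2, if_neg ha]
      rw [h4] at h3
      exact haS.1 h3.symm
    have heq : addStar F s₀ (insert a A) = addStar F s₀ A ⊔ SimpleGraph.edge s₀ a := by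
      ext u v
      rw [SimpleGraph.sup_adj, SimpleGraph.edge_adj]
      simp only [addStar, Finset.mem_insert]
      constructor
      · rintro (h | ⟨h, h' | h', h''⟩ | ⟨h, h' | h', h''⟩)
        · exact Or.inl (Or.inl h)
        · exact Or.inr ⟨Or.inl ⟨h, h'⟩, by rw [h]; exact h''.symm⟩
        · exact Or.inl (Or.inr (Or.inl ⟨h, h', h''⟩))
        · exact Or.inr ⟨Or.inr ⟨h', h⟩, by rw [h]; exact h''⟩
        · exact Or.inl (Or.inr (Or.inr ⟨h, h', h''⟩))
      · rintro ((h | ⟨h, h', h''⟩ | ⟨h, h', h''⟩) | ⟨⟨h, h'⟩ | ⟨h, h'⟩, h''⟩)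
        · exact Or.inl h
        · exact Or.inr (Or.inl ⟨h, Or.inr h', h''⟩)
        · exact Or.inr (Or.inr ⟨h, Or.inr h', h''⟩)
        · exact Or.inr (Or.inl ⟨h, Or.inl h', by rw [← h]; exact h''.symm⟩)
        · exact Or.inr (Or.inr ⟨h', Or.inl h, by rw [← h']; exact h''⟩)
    refine ⟨?_, ?_⟩
    · rw [heq]
      exact h1.sup_edge_of_not_reachable hnr
    · have h5 : (addStar F s₀ (insert a A)).edgeSet =
          insert s(s₀, a) (addStar F s₀ A).edgeSet := by
        rw [heq, SimpleGraph.edgeSet_sup, SimpleGraph.edgeSet_edge_of_ne haS.1.symm,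
          Set.union_comm, Set.insert_eq]
      rw [h5, Set.ncard_insert_of_notMem, h2, Finset.card_insert_of_notMem ha, add_assoc]
      intro h6
      rw [SimpleGraph.mem_edgeSet] at h6
      exact hnr h6.reachable

theorem forest_count (F : SimpleGraph V) (hF : F.IsAcyclic) (S : Finset V)
    (hroot : ∀ v, ∃! s, s ∈ S ∧ F.Reachable v s) (hS : S.Nonempty) :
    F.edgeSet.ncard + S.card = Fintype.card V := by
  obtain ⟨s₀, hs₀⟩ := hS
  obtain ⟨h1, h2⟩ := star_count F hF S hroot s₀ hs₀ (S.erase s₀) (le_refl _)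
  have h3 : (addStar F s₀ (S.erase s₀)).Connected := by
    have hle : F ≤ addStar F s₀ (S.erase s₀) := fun u v h => Or.inl h
    have h4 : ∀ v, (addStar F s₀ (S.erase s₀)).Reachable v s₀ := by
      intro v
      obtain ⟨s, ⟨hs, hvs⟩, -⟩ := hroot v
      refine (hvs.mono hle).trans ?_
      by_cases h : s = s₀
      · rw [h]
      · exact SimpleGraph.Adj.reachable
          (Or.inr (Or.inr ⟨rfl, Finset.mem_erase.2 ⟨h, hs⟩, h⟩))
    exact { preconnected := fun u v => (h4 u).trans (h4 v).symm, nonempty := ⟨s₀⟩ }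
  have h5 : (addStar F s₀ (S.erase s₀)).IsTree := ⟨h3, h1⟩
  have h6 := (SimpleGraph.isTree_iff_connected_and_card.1 h5).2
  have h7 : Nat.card (addStar F s₀ (S.erase s₀)).edgeSet =
      (addStar F s₀ (S.erase s₀)).edgeSet.ncard := rfl
  rw [h7, h2, Finset.card_erase_of_mem hs₀, Nat.card_eq_fintype_card] at h6
  have h8 : 0 < S.card := Finset.card_pos.2 ⟨s₀, hs₀⟩
  rw [← h6]
  omega

theorem lollipop_facts {k : ℕ} (hk : 1 ≤ k) {H : SimpleGraph V} (hH : IsLollipop k H) :
    H.Connected ∧ ∃ S : Finset V, S.card = k ∧ (∀ u ∈ S, ∀ v ∈ S, u ≠ v → H.Adj u v) ∧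
      H.edgeSet.ncard = k.choose 2 + (Fintype.card V - k) := by
  obtain ⟨S, F, hS, hF, hroot, hadj⟩ := hH
  have hSne : S.Nonempty := Finset.card_pos.1 (by omega)
  have hclique : ∀ u ∈ S, ∀ v ∈ S, u ≠ v → H.Adj u v := fun u hu v hv huv =>
    (hadj u v).2 (Or.inl ⟨huv, hu, hv⟩)
  have hle : F ≤ H := fun u v h => (hadj u v).2 (Or.inr h)
  refine ⟨?_, S, hS, hclique, ?_⟩
  · obtain ⟨s₀, hs₀⟩ := hSne
    have h4 : ∀ v, H.Reachable v s₀ := by
      intro v
      obtain ⟨s, ⟨hs, hvs⟩, -⟩ := hroot v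
      refine (hvs.mono hle).trans ?_
      by_cases h : s = s₀
      · rw [h]
      · exact (hclique s hs s₀ hs₀ h).reachable
    exact { preconnected := fun u v => (h4 u).trans (h4 v).symm, nonempty := ⟨s₀⟩ }
  · have h1 := forest_count F hF S hroot hSne
    set K : SimpleGraph V := (⊤ : SimpleGraph S).map (Function.Embedding.subtype _) with hK
    have hKadj : ∀ u v, K.Adj u v ↔ (u ≠ v ∧ u ∈ S ∧ v ∈ S) := by
      intro u v
      rw [hK, SimpleGraph.map_adj]
      constructor
      · rintro ⟨a, b, hab, rfl, rfl⟩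
        refine ⟨?_, a.2, b.2⟩
        intro h
        exact hab (Subtype.ext h)
      · rintro ⟨h, hu, hv⟩
        exact ⟨⟨u, hu⟩, ⟨v, hv⟩, fun h' => h (congrArg Subtype.val h'), rfl, rfl⟩
    have h2 : H.edgeSet = K.edgeSet ∪ F.edgeSet := by
      rw [← SimpleGraph.edgeSet_sup]
      congr 1
      ext u v
      rw [SimpleGraph.sup_adj, hKadj, hadj]
    have h3 : Disjoint K.edgeSet F.edgeSet := by
      rw [Set.disjoint_left]
      intro e
      induction e using Sym2.ind with
      | _ u v =>
        intro h4 h5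
        rw [SimpleGraph.mem_edgeSet] at h4 h5
        obtain ⟨huv, hu, hv⟩ := (hKadj u v).1 h4
        exact huv ((hroot u).unique ⟨hu, SimpleGraph.Reachable.refl u⟩ ⟨hv, h5.reachable⟩)
    have h4 : K.edgeSet.ncard = k.choose 2 := by
      have h5 : K.edgeSet = (Function.Embedding.subtype (fun x => x ∈ S)).sym2Map ''
          (⊤ : SimpleGraph S).edgeSet := by
        rw [hK, SimpleGraph.edgeSet_map]
      rw [h5, Set.ncard_image_of_injective _ (Function.Embedding.injective _),
        ← SimpleGraph.coe_edgeFinset, Set.ncard_coe_finset,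
        SimpleGraph.card_edgeFinset_top_eq_card_choose_two, Fintype.card_coe, hS]
    rw [h2, Set.ncard_union_eq h3 (Set.toFinite _) (Set.toFinite _), h4]
    omega

end count

/-! ### The theorem -/

theorem monoCopies_eq {t n : ℕ} (H : SimpleGraph (Fin t)) (G : SimpleGraph (Fin n)) :
    monoCopies H G = Pool.Agent.Lib.MP_6505eb_co.monoEmb H G := by
  unfold monoCopies Pool.Agent.Lib.MP_6505eb_co.monoEmb
  rw [← Fintype.card_subtype, ← Nat.card_eq_fintype_card]
  refine Nat.card_congr ⟨fun f => ⟨⟨f.1, f.2.1⟩, ?_⟩, fun f => ⟨f.1, f.1.injective, ?_⟩, ?_, ?_⟩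
  · rcases f.2.2 with h | h
    · exact Or.inl h
    · exact Or.inr fun u v huv => (SimpleGraph.compl_adj _ _ _).2
        ⟨fun h' => huv.ne (f.2.1 h'), h u v huv⟩
  · rcases f.2 with h | h
    · exact Or.inl h
    · exact Or.inr fun u v huv => ((SimpleGraph.compl_adj _ _ _).1 (h u v huv)).2
  · intro f
    rfl
  · intro f
    rfl

/-- **Generalized lollipops are two-colour bonbons.**  For every `k ≥ 4` there is `T` such that for
every `t ≥ T` and every `(k, t)`-generalized lollipop `H` the limit defining the Ramsey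
multiplicity constant exists and is the value `(k - 1) ^ (1 - t)` of the Turán colouring. -/
theorem result (k : ℕ) (hk : 4 ≤ k) :
    ∃ T : ℕ, ∀ t : ℕ, T ≤ t → ∀ H : SimpleGraph (Fin t), IsLollipop k H →
      HasRamseyMultiplicity H (((k : ℝ) - 1) ^ (1 - (t : ℤ))) := by
  obtain ⟨T, hT⟩ := Pool.Agent.Lib.MP_6505eb_co.main_thm k hk
  refine ⟨T, fun t ht H hH => ?_⟩
  obtain ⟨hc, S, hS, hcl, hE⟩ := lollipop_facts (by omega) hH
  rw [Fintype.card_fin] at hE
  have hmain := hT t ht H ⟨hc, S, hS, hcl, hE⟩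
  unfold HasRamseyMultiplicity
  rw [Metric.tendsto_atTop]
  intro ε hε
  obtain ⟨N, hN⟩ := hmain (ε / 2) (by linarith)
  refine ⟨N, fun n hn => ?_⟩
  obtain ⟨h1, G, h2⟩ := hN n hn
  have hbdd : BddBelow (Set.range fun G : SimpleGraph (Fin n) =>
      (monoCopies H G : ℝ) / (n.descFactorial t : ℝ)) := by
    refine ⟨0, ?_⟩
    rintro _ ⟨G, rfl⟩
    positivity
  have h3 : ((k : ℝ) - 1) ^ (1 - (t : ℤ)) - ε / 2 ≤ minProportion H n := by
    unfold minProportion
    apply le_ciInf
    intro G
    rw [monoCopies_eq]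
    exact h1 G
  have h4 : minProportion H n ≤ ((k : ℝ) - 1) ^ (1 - (t : ℤ)) + ε / 2 := by
    unfold minProportion
    refine (ciInf_le hbdd G).trans ?_
    rw [monoCopies_eq]
    exact h2
  rw [Real.dist_eq, abs_lt]
  constructor <;> linarith

end Pool.Agent.Results.MP_6505eb_co.LollipopConstant
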